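import Pool.Agent.R231.GB.Main2

set_option autoImplicit false

open Filter Topology Set Metric Asymptotics

namespace Pool.Agent.R238.BK

open Pool.Agent.R231.GB (kk kinv Dsc mem_Dsc kk_re kk_re_pos kk_diff one_sub_ne kinv_ne kinv_mem kk_kinv kinv_kk julia hopf tendsto_real)

variable {n : ℕ}

/-- the symmetrization map: the coordinate with index `k = 0, …, n - 1` is the elementary
symmetric polynomial of degree `k + 1` -/
def sym (l : Fin n → ℂ) (k : Fin n) : ℂ :=
  ∑ s ∈ Finset.powersetCard ((k : ℕ) + 1) (Finset.univ : Finset (Fin n)), ∏ i ∈ s, l i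

/-- the polynomial with coefficients `(-1)^k s_k` -/
def pol (s : Fin n → ℂ) (t : ℂ) : ℂ := 1 + ∑ k : Fin n, (-t) ^ ((k : ℕ) + 1) * s k

/-- `t` times its derivative -/
def dpol (s : Fin n → ℂ) (t : ℂ) : ℂ :=
  ∑ k : Fin n, (((k : ℕ) + 1 : ℕ) : ℂ) * (-t) ^ ((k : ℕ) + 1) * s k

lemma pol_sym (l : Fin n → ℂ) (t : ℂ) : pol (sym l) t = ∏ i, (1 - t * l i) := by
  have h : ∏ i, (1 - t * l i) = ∏ i, (1 + (-t) * l i) := by
    refine Finset.prod_congr rfl fun i _ => ?_
    ring
  rw [h, Finset.prod_one_add, Finset.sum_powerset, Finset.card_univ, Fintype.card_fin,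
    Finset.sum_range_succ']
  simp only [Finset.powersetCard_zero, Finset.sum_singleton, Finset.prod_empty]
  rw [pol, add_comm, Finset.sum_range]
  congr 1
  refine Finset.sum_congr rfl fun k _ => ?_
  rw [sym, Finset.mul_sum]
  refine Finset.sum_congr rfl fun s hs => ?_
  rw [Finset.prod_mul_distrib, Finset.prod_const, (Finset.mem_powersetCard.1 hs).2]

lemma hasDerivAt_pol (s : Fin n → ℂ) (t : ℂ) :
    HasDerivAt (pol s) (∑ k : Fin n, -(((k : ℕ) + 1 : ℕ) : ℂ) * (-t) ^ (k : ℕ) * s k) t := by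
  unfold pol
  apply HasDerivAt.const_add
  apply HasDerivAt.fun_sum
  intro k _
  apply HasDerivAt.mul_const
  have h1 := (hasDerivAt_neg t).fun_pow ((k : ℕ) + 1)
  simp only [Nat.add_sub_cancel] at h1
  convert h1 using 1
  ring

lemma dpol_eq (s : Fin n → ℂ) (t : ℂ) : dpol s t = t * deriv (pol s) t := by
  rw [(hasDerivAt_pol s t).deriv, dpol, Finset.mul_sum]
  refine Finset.sum_congr rfl fun k _ => ?_
  rw [pow_succ]
  ring

lemma dpol_sym (l : Fin n → ℂ) (t : ℂ) :
    dpol (sym l) t = ∑ i, (∏ j ∈ Finset.univ.erase i, (1 - t * l j)) * (-(t * l i)) := by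
  have h : HasDerivAt (fun t => ∏ i, (1 - t * l i))
      (∑ i, (∏ j ∈ Finset.univ.erase i, (1 - t * l j)) • (-(l i))) t := by
    apply HasDerivAt.fun_finsetProd
    intro i _
    have h1 := ((hasDerivAt_id t).mul_const (l i)).const_sub 1
    simpa using h1
  have h2 : pol (sym l) = fun t => ∏ i, (1 - t * l i) := by
    funext t
    exact pol_sym l t
  rw [dpol_eq, h2, h.deriv, Finset.mul_sum]
  refine Finset.sum_congr rfl fun k _ => ?_
  rw [smul_eq_mul]
  ring

/-- the function `H_w` -/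
noncomputable def HH (w : ℂ) (s : Fin n → ℂ) : ℂ := ((n : ℂ) * pol s w - 2 * dpol s w) / pol s w

lemma HH_sym (w : ℂ) (l : Fin n → ℂ) (h : ∀ i, w * l i ≠ 1) :
    HH w (sym l) = ∑ i, kk (w * l i) := by
  have hne : ∀ i, 1 - w * l i ≠ 0 := fun i hi => h i (by linear_combination -hi)
  have hp : pol (sym l) w ≠ 0 := by
    rw [pol_sym]
    exact Finset.prod_ne_zero_iff.2 fun i _ => hne i
  rw [HH, div_eq_iff hp, dpol_sym, pol_sym, Finset.mul_sum, Finset.sum_mul]
  have e : (n : ℂ) * ∏ i, (1 - w * l i) = ∑ _i : Fin n, ∏ i, (1 - w * l i) := by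
    rw [Finset.sum_const, Finset.card_univ, Fintype.card_fin, nsmul_eq_mul]
  rw [e, ← Finset.sum_sub_distrib]
  refine Finset.sum_congr rfl fun i _ => ?_
  rw [← Finset.mul_prod_erase Finset.univ _ (Finset.mem_univ i), kk]
  have := hne i
  field_simp
  ring

lemma pol_diff (w : ℂ) : ContDiff ℂ 1 (fun s : Fin n → ℂ => pol s w) := by
  unfold pol
  fun_prop

lemma dpol_diff (w : ℂ) : ContDiff ℂ 1 (fun s : Fin n → ℂ => dpol s w) := by
  unfold dpol
  fun_prop

lemma HH_diff (w : ℂ) {s : Fin n → ℂ} (hs : pol s w ≠ 0) :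
    ContDiffAt ℂ 1 (fun s : Fin n → ℂ => HH w s) s := by
  unfold HH
  apply ContDiffAt.div _ (pol_diff w).contDiffAt hs
  exact (contDiffAt_const.mul (pol_diff w).contDiffAt).sub
    (contDiffAt_const.mul (dpol_diff w).contDiffAt)

/-- `pol s` as a polynomial -/
noncomputable def PP (s : Fin n → ℂ) : Polynomial ℂ :=
  1 + ∑ k : Fin n, (-Polynomial.X) ^ ((k : ℕ) + 1) * Polynomial.C (s k)

lemma PP_eval (s : Fin n → ℂ) (t : ℂ) : (PP s).eval t = pol s t := by
  simp only [PP, pol, Polynomial.eval_add, Polynomial.eval_one, Polynomial.eval_finsetSum,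
    Polynomial.eval_mul, Polynomial.eval_pow, Polynomial.eval_neg, Polynomial.eval_X,
    Polynomial.eval_C]

lemma PP_eval_deriv (s : Fin n → ℂ) (t : ℂ) :
    dpol s t = t * (PP s).derivative.eval t := by
  have h : pol s = fun t => (PP s).eval t := by
    funext t
    exact (PP_eval s t).symm
  rw [dpol_eq, h, Polynomial.deriv]

lemma PP_inj {s s' : Fin n → ℂ} (hPeq : PP s = PP s') : s = s' := by
  have hc : ∀ (s : Fin n → ℂ) (k : Fin n),
      (PP s).coeff ((k : ℕ) + 1) = (-1) ^ ((k : ℕ) + 1) * s k := by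
    intro s k
    simp only [PP, Polynomial.coeff_add, Polynomial.finsetSum_coeff]
    rw [Polynomial.coeff_one, if_neg (by omega), zero_add]
    have e : ∀ j : Fin n, ((-Polynomial.X) ^ ((j : ℕ) + 1) * Polynomial.C (s j) : Polynomial ℂ) =
        Polynomial.C ((-1) ^ ((j : ℕ) + 1) * s j) * Polynomial.X ^ ((j : ℕ) + 1) := by
      intro j
      rw [neg_pow, Polynomial.C_mul, Polynomial.C_pow, Polynomial.C_neg, Polynomial.C_1]
      ring
    simp only [e, Polynomial.coeff_C_mul_X_pow]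
    rw [Finset.sum_eq_single k]
    · simp
    · intro b _ hb
      rw [if_neg]
      intro h
      exact hb (Fin.ext (by omega))
    · simp
  funext k
  have h1 := hc s k
  have h2 := hc s' k
  rw [hPeq, h2] at h1
  have h3 : ((-1 : ℂ)) ^ ((k : ℕ) + 1) ≠ 0 := pow_ne_zero _ (by norm_num)
  exact (mul_left_cancel₀ h3 h1).symm

lemma Dsc_infinite : (Dsc : Set ℂ).Infinite := by
  have h0 : (0 : ℂ) ∈ Dsc := by rw [mem_Dsc, norm_zero]; exact one_pos
  have : IsOpen (Dsc : Set ℂ) := isOpen_ball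
  exact infinite_of_mem_nhds (0 : ℂ) (this.mem_nhds h0)

lemma pol_zero (s : Fin n → ℂ) : pol s 0 = 1 := by
  simp [pol]

/-- symmetrizations with the same `H_w` for infinitely many `w` agree -/
lemma eq_of_HH {s s' : Fin n → ℂ} {W : Set ℂ} (hW : W.Infinite)
    (hs : ∀ w ∈ W, pol s w ≠ 0) (hs' : ∀ w ∈ W, pol s' w ≠ 0)
    (hd : ∀ t ∈ Dsc, pol s' t ≠ 0)
    (h : ∀ w ∈ W, HH w s = HH w s') : s = s' := by
  have h1 : Polynomial.X * ((PP s).derivative * PP s') =
      Polynomial.X * ((PP s').derivative * PP s) := by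
    apply Polynomial.eq_of_infinite_eval_eq
    apply hW.mono
    intro w hw
    show Polynomial.eval w _ = Polynomial.eval w _
    have e := h w hw
    rw [HH, HH, div_eq_div_iff (hs w hw) (hs' w hw), PP_eval_deriv, PP_eval_deriv] at e
    simp only [Polynomial.eval_mul, Polynomial.eval_X, PP_eval]
    linear_combination (-1 / 2 : ℂ) * e
  have h2 : (PP s).derivative * PP s' = (PP s').derivative * PP s :=
    mul_left_cancel₀ Polynomial.X_ne_zero h1
  have hopen : IsOpen (Dsc : Set ℂ) := isOpen_ball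
  have h0 : (0 : ℂ) ∈ Dsc := by rw [mem_Dsc, norm_zero]; exact one_pos
  have hder : ∀ t ∈ Dsc, HasDerivAt (fun t => (PP s).eval t / (PP s').eval t) 0 t := by
    intro t ht
    have h3 := ((PP s).hasDerivAt t).fun_div ((PP s').hasDerivAt t)
      (by rw [PP_eval]; exact hd t ht)
    have h4 := congrArg (Polynomial.eval t) h2
    rw [Polynomial.eval_mul, Polynomial.eval_mul] at h4
    rw [h4, mul_comm (Polynomial.eval t (PP s)), sub_self, zero_div] at h3
    exact h3
  have hconst : ∀ t ∈ Dsc, (PP s).eval t / (PP s').eval t = 1 := by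
    intro t ht
    have h3 := hopen.is_const_of_deriv_eq_zero (convex_ball (0 : ℂ) 1).isPreconnected
      (f := fun t => (PP s).eval t / (PP s').eval t)
      (fun t ht => (hder t ht).differentiableAt.differentiableWithinAt)
      (fun t ht => (hder t ht).deriv) ht h0
    rw [h3, PP_eval, PP_eval, pol_zero, pol_zero, div_one]
  apply PP_inj
  apply Polynomial.eq_of_infinite_eval_eq
  apply Dsc_infinite.mono
  intro t ht
  show (PP s).eval t = (PP s').eval t
  have h3 := hconst t ht
  rw [div_eq_one_iff_eq] at h3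
  · exact h3
  · rw [PP_eval]; exact hd t ht

end Pool.Agent.R238.BK
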