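import Pool.Agent.R238.BK.One

set_option autoImplicit false

open Filter Topology Set Metric Asymptotics

namespace Pool.Agent.R238.BK

open Pool.Agent.R231.GB (kk kinv Dsc mem_Dsc kk_re kk_re_pos kk_diff one_sub_ne kinv_ne kinv_mem kk_kinv kinv_kk julia hopf tendsto_real)

variable {n : ℕ}

/-- the symmetrized polydisc -/
def GG (n : ℕ) : Set (Fin n → ℂ) := sym '' {l | ∀ i, ‖l i‖ < 1}

lemma sym_contDiff : ContDiff ℂ 1 (sym : (Fin n → ℂ) → (Fin n → ℂ)) := by
  unfold sym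
  rw [contDiff_pi]
  intro k
  apply ContDiff.sum
  intro s _
  apply contDiff_prod
  intro i _
  exact contDiff_apply ℂ ℂ i

lemma pol_ne {w : ℂ} (hw : ‖w‖ ≤ 1) {s : Fin n → ℂ} (hs : s ∈ GG n) : pol s w ≠ 0 := by
  obtain ⟨m, hm, rfl⟩ := hs
  rw [pol_sym]
  refine Finset.prod_ne_zero_iff.2 fun i _ => ?_
  apply one_sub_ne
  rw [norm_mul]
  have := hm i
  nlinarith [norm_nonneg (m i), norm_nonneg w]

lemma mul_ne_one' {w a : ℂ} (hw : ‖w‖ ≤ 1) (ha : ‖a‖ < 1) : w * a ≠ 1 := by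
  intro h
  have h1 : ‖w * a‖ = 1 := by rw [h, norm_one]
  rw [norm_mul] at h1
  nlinarith [norm_nonneg a, norm_nonneg w]

lemma HH_re_pos [NeZero n] {w : ℂ} (hw : ‖w‖ = 1) {s : Fin n → ℂ} (hs : s ∈ GG n) :
    0 < (HH w s).re := by
  obtain ⟨m, hm, rfl⟩ := hs
  rw [HH_sym w m (fun i => mul_ne_one' hw.le (hm i)), Complex.re_sum]
  apply Finset.sum_pos
  · intro i _
    apply kk_re_pos
    rw [norm_mul, hw, one_mul]
    exact hm i
  · exact ⟨0, Finset.mem_univ _⟩

lemma kinv_kk' {a : ℂ} (ha : a ≠ 1) : kinv (kk a) = a := by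
  have h1 : 1 - a ≠ 0 := fun h => ha (by linear_combination -h)
  have h3 : kk a + 1 = 2 / (1 - a) := by
    rw [kk]
    field_simp
    ring
  have h2 : kk a + 1 ≠ 0 := by
    rw [h3]
    exact div_ne_zero (by norm_num) h1
  rw [kinv, div_eq_iff h2, h3, kk]
  field_simp
  ring

section
variable {l : Fin n → ℂ} {w : ℂ}

/-- the disc through `sym l` -/
noncomputable def xx (w : ℂ) (u : Fin n → ℂ) : Fin n → ℂ :=
  fun i => (starRingEnd ℂ) w * kinv (u i)

lemma conj_mul_one (hw : ‖w‖ = 1) : w * (starRingEnd ℂ) w = 1 := by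
  rw [Complex.mul_conj, Complex.normSq_eq_norm_sq, hw]
  norm_num

lemma norm_conj_one (hw : ‖w‖ = 1) : ‖(starRingEnd ℂ) w‖ = 1 := by
  rw [RCLike.norm_conj, hw]

lemma xx_norm (hw : ‖w‖ = 1) {u : Fin n → ℂ} (hu : ∀ i, 0 < (u i).re) (i : Fin n) :
    ‖xx w u i‖ < 1 := by
  rw [xx, norm_mul, norm_conj_one hw, one_mul]
  exact mem_Dsc.1 (kinv_mem (hu i))

lemma kk_xx (hw : ‖w‖ = 1) {u : Fin n → ℂ} (hu : ∀ i, 0 < (u i).re) (i : Fin n) :
    kk (w * xx w u i) = u i := by
  rw [xx, ← mul_assoc, conj_mul_one hw, one_mul, kk_kinv (hu i)]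

lemma xx_kk (hw : ‖w‖ = 1) {x : Fin n → ℂ} (hx : ∀ i, w * x i ≠ 1) :
    xx w (fun i => kk (w * x i)) = x := by
  funext i
  rw [xx]
  rw [kinv_kk' (hx i), ← mul_assoc, mul_comm ((starRingEnd ℂ) w), conj_mul_one hw, one_mul]

lemma sym_xx_mem (hw : ‖w‖ = 1) {u : Fin n → ℂ} (hu : ∀ i, 0 < (u i).re) :
    sym (xx w u) ∈ GG n := ⟨xx w u, fun i => xx_norm hw hu i, rfl⟩

lemma HH_xx (hw : ‖w‖ = 1) {u : Fin n → ℂ} (hu : ∀ i, 0 < (u i).re) :
    HH w (sym (xx w u)) = ∑ i, u i := by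
  rw [HH_sym w _ (fun i => mul_ne_one' hw.le (xx_norm hw hu i))]
  exact Finset.sum_congr rfl fun i _ => kk_xx hw hu i

lemma xx_diff {u : Fin n → ℂ} (hu : ∀ i, u i + 1 ≠ 0) : DifferentiableAt ℂ (xx w) u := by
  rw [differentiableAt_pi]
  intro i
  unfold xx kinv
  apply DifferentiableAt.const_mul
  simp only [div_eq_mul_inv]
  apply DifferentiableAt.mul
  · exact (differentiableAt_apply i u).sub_const 1
  · exact ((differentiableAt_apply i u).add_const 1).fun_inv (hu i)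

/-- the composed function on the product of half-planes is holomorphic -/
lemma comp_diff {F : (Fin n → ℂ) → (Fin n → ℂ)} (hF : DifferentiableOn ℂ F (GG n))
    (hm : MapsTo F (GG n) (GG n)) (hw : ‖w‖ = 1) :
    DifferentiableOn ℂ (fun u => HH w (F (sym (xx w u)))) {u | ∀ i, 0 < (u i).re} := by
  have h1 : DifferentiableOn ℂ (fun u => sym (xx w u)) {u : Fin n → ℂ | ∀ i, 0 < (u i).re} := by
    intro u hu
    apply DifferentiableAt.differentiableWithinAt
    exact (sym_contDiff.differentiable (by norm_num)).differentiableAt.comp u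
      (xx_diff fun i => kinv_ne (hu i))
  have h2 : DifferentiableOn ℂ (fun u => F (sym (xx w u))) {u : Fin n → ℂ | ∀ i, 0 < (u i).re} :=
    hF.comp h1 (fun u hu => sym_xx_mem hw hu)
  intro u hu
  have h3 := (HH_diff w (pol_ne hw.le (hm (sym_xx_mem hw hu)))).differentiableAt (by norm_num)
  exact h3.comp_differentiableWithinAt u (h2 u hu)

/-- the disc in the product of half-planes -/
noncomputable def uu (r : Fin n → ℝ) (v : Fin n → ℂ) (z : ℂ) : Fin n → ℂ :=
  fun i => (r i : ℂ) * ck z + v i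

lemma uu_re {r : Fin n → ℝ} (hr : ∀ i, 0 < r i) {v : Fin n → ℂ} (hv : ∀ i, (v i).re = 0)
    {z : ℂ} (hz : z ∈ Dsc) (i : Fin n) : 0 < (uu r v z i).re := by
  rw [uu, Complex.add_re, hv, add_zero, Complex.re_ofReal_mul]
  exact mul_pos (hr i) (ck_re_pos hz)

lemma ck_diff {z : ℂ} (hz : 1 + z ≠ 0) : DifferentiableAt ℂ ck z := by
  unfold ck
  exact DifferentiableAt.div (by fun_prop) (by fun_prop) hz

lemma uu_diff {r : Fin n → ℝ} {v : Fin n → ℂ} {z : ℂ} (hz : 1 + z ≠ 0) :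
    DifferentiableAt ℂ (uu r v) z := by
  rw [differentiableAt_pi]
  intro i
  unfold uu
  exact ((ck_diff hz).const_mul _).add_const _

lemma lip_comp {H : (Fin n → ℂ) → ℂ} {p : Fin n → ℂ} (hH : ContDiffAt ℂ 1 H p)
    {a b : ℝ → (Fin n → ℂ)} {L : Filter ℝ} (ha : Tendsto a L (𝓝 p)) (hb : Tendsto b L (𝓝 p)) :
    (fun r => H (a r) - H (b r)) =O[L] (fun r => a r - b r) := by
  have h1 := (hH.hasStrictFDerivAt (by norm_num)).isBigO_sub
  have h2 : Tendsto (fun r : ℝ => (a r, b r)) L (𝓝 (p, p)) := ha.prodMk_nhds hb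
  have h3 := h1.comp_tendsto h2
  simp only [Function.comp_def] at h3
  exact h3

/-- the value at the base point -/
lemma step [NeZero n] {F : (Fin n → ℂ) → (Fin n → ℂ)} (hF : DifferentiableOn ℂ F (GG n))
    (hm : MapsTo F (GG n) (GG n))
    (hBK : (fun z => F z - z) =o[𝓝[GG n] (sym l)] (fun z => ‖z - sym l‖ ^ 3))
    (hl : ∀ i, ‖l i‖ = 1) (hw : ‖w‖ = 1) (hwl : ∀ i, w * l i ≠ 1)
    {r : Fin n → ℝ} (hr : ∀ i, 0 < r i) :
    HH w (F (sym (xx w (fun i => (r i : ℂ) + kk (w * l i))))) =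
      ∑ i, ((r i : ℂ) + kk (w * l i)) := by
  set v : Fin n → ℂ := fun i => kk (w * l i) with hv
  have hvre : ∀ i, (v i).re = 0 := by
    intro i
    rw [hv]
    simp only
    rw [kk_re, norm_mul, hw, hl i]
    norm_num
  have h0 : (0 : ℂ) ∈ Dsc := by rw [mem_Dsc, norm_zero]; exact one_pos
  set f : ℂ → ℂ := fun z => HH w (F (sym (xx w (uu r v z)))) with hf
  have hfd : DifferentiableOn ℂ f Dsc :=
    (comp_diff hF hm hw).comp (f := uu r v) (s := Dsc)
      (fun z hz => (uu_diff (one_add_ne (mem_Dsc.1 hz))).differentiableWithinAt)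
      (fun z hz => uu_re hr hvre hz)
  have hfre : ∀ z ∈ Dsc, 0 < (f z).re := fun z hz =>
    HH_re_pos hw (hm (sym_xx_mem hw (uu_re hr hvre hz)))
  -- the disc
  set s : ℂ → (Fin n → ℂ) := fun z => sym (xx w (uu r v z)) with hs
  have h11 : (1 : ℂ) + 1 ≠ 0 := by norm_num
  have hu1 : uu r v 1 = v := by
    funext i
    rw [uu, ck, sub_self, zero_div, mul_zero, zero_add]
  have hv1 : ∀ i, v i + 1 ≠ 0 := by
    intro i h
    have := congrArg Complex.re h
    rw [Complex.add_re, hvre, Complex.one_re, Complex.zero_re] at this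
    norm_num at this
  have hs1 : s 1 = sym l := by
    rw [hs]
    simp only
    rw [hu1, hv, xx_kk hw hwl]
  have hxd : DifferentiableAt ℂ (xx w) (uu r v 1) := by
    apply xx_diff
    rw [hu1]
    exact hv1
  have hsd : DifferentiableAt ℂ s 1 :=
    ((sym_contDiff.differentiable (by norm_num)).differentiableAt).comp (1 : ℂ)
      (hxd.comp (1 : ℂ) (uu_diff h11))
  have hcr : Tendsto (fun r : ℝ => (r : ℂ)) (𝓝[<] 1) (𝓝 1) :=
    tendsto_real.mono_right nhdsWithin_le_nhds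
  have hsO : (fun r : ℝ => s r - sym l) =O[𝓝[<] 1] (fun r : ℝ => (1 - (r : ℂ))) := by
    have h1 := hsd.isBigO_sub.comp_tendsto hcr
    simp only [Function.comp_def, hs1] at h1
    refine h1.trans (IsBigO.of_bound 1 (Eventually.of_forall fun r => ?_))
    rw [norm_sub_rev, one_mul]
  have hrD : ∀ᶠ r : ℝ in 𝓝[<] 1, (r : ℂ) ∈ Dsc := tendsto_real.eventually self_mem_nhdsWithin
  have hst : Tendsto (fun r : ℝ => s r) (𝓝[<] 1) (𝓝[GG n] (sym l)) := by
    rw [tendsto_nhdsWithin_iff]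
    constructor
    · have := hsd.continuousAt.tendsto.comp hcr
      rw [hs1] at this
      exact this
    · filter_upwards [hrD] with r hr'
      exact sym_xx_mem hw (uu_re hr hvre hr')
  have hst' : Tendsto (fun r : ℝ => s r) (𝓝[<] 1) (𝓝 (sym l)) :=
    hst.mono_right nhdsWithin_le_nhds
  have ho : (fun r : ℝ => F (s r) - s r) =o[𝓝[<] 1] (fun r : ℝ => (1 - (r : ℂ)) ^ 3) := by
    have h1 := hBK.comp_tendsto hst
    simp only [Function.comp_def] at h1
    refine h1.trans_isBigO ?_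
    have h2 := hsO.norm_left.pow 3
    exact h2
  have hFt : Tendsto (fun r : ℝ => F (s r)) (𝓝[<] 1) (𝓝 (sym l)) := by
    have h1 : Tendsto (fun r : ℝ => (1 - (r : ℂ)) ^ 3) (𝓝[<] 1) (𝓝 ((1 - 1) ^ 3)) :=
      (tendsto_const_nhds.sub hcr).pow 3
    rw [sub_self, zero_pow (by norm_num)] at h1
    have h2 : Tendsto (fun r : ℝ => F (s r) - s r) (𝓝[<] 1) (𝓝 0) :=
      ho.isBigO.trans_tendsto h1
    have h3 := h2.add hst'
    simp only [sub_add_cancel, zero_add] at h3
    exact h3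
  have hpne : pol (sym l) w ≠ 0 := by
    rw [pol_sym]
    exact Finset.prod_ne_zero_iff.2 fun i _ h => hwl i (by linear_combination -h)
  have hO : (fun r : ℝ => HH w (F (s r)) - HH w (s r)) =O[𝓝[<] 1] (fun r : ℝ => F (s r) - s r) :=
    lip_comp (HH_diff w hpne) hFt hst'
  have hHs : ∀ z ∈ Dsc, HH w (s z) = ((∑ i, r i : ℝ) : ℂ) * ck z + ∑ i, v i := by
    intro z hz
    rw [hs]
    simp only
    rw [HH_xx hw (uu_re hr hvre hz)]
    simp only [uu]
    rw [Finset.sum_add_distrib, ← Finset.sum_mul, Complex.ofReal_sum]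
  have hlim : Tendsto (fun r' : ℝ => (f r' - (((∑ i, r i : ℝ) : ℂ) * ck r' + ∑ i, v i)) /
      (1 - (r' : ℂ)) ^ 3) (𝓝[<] 1) (𝓝 0) := by
    have h1 := (hO.trans_isLittleO ho).tendsto_div_nhds_zero
    refine h1.congr' ?_
    filter_upwards [hrD] with r' hr'
    rw [hHs _ hr']
  have hkey := key1 hfd hfre (R := ∑ i, r i)
    (Finset.sum_pos (fun i _ => hr i) ⟨0, Finset.mem_univ _⟩) (V := ∑ i, v i)
    (by rw [Complex.re_sum]; exact Finset.sum_eq_zero fun i _ => hvre i) hlim h0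
  rw [hf] at hkey
  simp only at hkey
  have hu0 : uu r v 0 = fun i => (r i : ℂ) + v i := by
    funext i
    rw [uu, ck, sub_zero, add_zero, div_one, mul_one]
  rw [hu0] at hkey
  rw [hkey, ck, sub_zero, add_zero, div_one, mul_one, Finset.sum_add_distrib, Complex.ofReal_sum]

end

lemma infinite_W (l : Fin n → ℂ) : {w : ℂ | ‖w‖ = 1 ∧ ∀ i, w * l i ≠ 1}.Infinite := by
  have h1 : (sphere (0 : ℂ) 1).Infinite := by
    apply IsPreconnected.infinite_of_nontrivial
    · exact isPreconnected_sphere (by rw [Complex.rank_real_complex]; norm_num) 0 1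
    · refine ⟨1, by simp, -1, by simp, ?_⟩
      norm_num
  have h2 : (⋃ i : Fin n, {w : ℂ | w * l i = 1}).Finite := by
    apply Set.finite_iUnion
    intro i
    apply Set.Subsingleton.finite
    intro a ha b hb
    have ha' : a * l i = 1 := ha
    have hb' : b * l i = 1 := hb
    have hne : l i ≠ 0 := by
      intro h
      rw [h, mul_zero] at ha'
      norm_num at ha'
    exact mul_right_cancel₀ hne (ha'.trans hb'.symm)
  refine (h1.sdiff h2).mono ?_
  rintro w ⟨hw1, hw2⟩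
  refine ⟨by simpa using hw1, fun i hi => hw2 ?_⟩
  exact Set.mem_iUnion.2 ⟨i, hi⟩

/-- the rigidity theorem -/
theorem rigid [NeZero n] {F : (Fin n → ℂ) → (Fin n → ℂ)} (hF : DifferentiableOn ℂ F (GG n))
    (hm : MapsTo F (GG n) (GG n)) {l : Fin n → ℂ} (hl : ∀ i, ‖l i‖ = 1)
    (hBK : (fun z => F z - z) =o[𝓝[GG n] (sym l)] (fun z => ‖z - sym l‖ ^ 3))
    {z : Fin n → ℂ} (hz : z ∈ GG n) : F z = z := by
  have hid : ∀ w : ℂ, ‖w‖ = 1 → (∀ i, w * l i ≠ 1) → HH w (F z) = HH w z := by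
    intro w hw hwl
    obtain ⟨x, hx, rfl⟩ := hz
    have h1 := identity (Φ := fun u => HH w (F (sym (xx w u))) - ∑ i, u i)
      (v := fun i => kk (w * l i))
      (by
        apply (comp_diff hF hm hw).sub
        apply Differentiable.differentiableOn
        fun_prop)
      (by
        intro i
        rw [kk_re, norm_mul, hw, hl i]
        norm_num)
      (by
        intro r hr
        rw [step hF hm hBK hl hw hwl hr, sub_self])
      (u := fun i => kk (w * x i))
      (by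
        intro i
        apply kk_re_pos
        rw [norm_mul, hw, one_mul]
        exact hx i)
    rw [xx_kk hw (fun i => mul_ne_one' hw.le (hx i))] at h1
    rw [HH_sym w x (fun i => mul_ne_one' hw.le (hx i))]
    linear_combination h1
  apply eq_of_HH (infinite_W l)
  · intro w hw
    exact pol_ne hw.1.le (hm hz)
  · intro w hw
    exact pol_ne hw.1.le hz
  · intro t ht
    exact pol_ne (mem_Dsc.1 ht).le hz
  · intro w hw
    exact hid w hw.1 hw.2

end Pool.Agent.R238.BK
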