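import Pool.Agent.R238.BK.Alg

set_option autoImplicit false

open Filter Topology Set Metric Asymptotics

namespace Pool.Agent.R238.BK

open Pool.Agent.R231.GB (kk kinv Dsc mem_Dsc kk_re kk_re_pos kk_diff one_sub_ne kinv_ne kinv_mem kk_kinv kinv_kk julia hopf tendsto_real)

variable {n : ℕ}

/-- the Cayley transform sending `1` to `0` -/
noncomputable def ck (z : ℂ) : ℂ := (1 - z) / (1 + z)

lemma one_add_ne {a : ℂ} (ha : ‖a‖ < 1) : 1 + a ≠ 0 := by
  intro h
  have h3 : a = -1 := by linear_combination h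
  rw [h3, norm_neg, norm_one] at ha
  exact lt_irrefl _ ha

lemma ck_re_pos {z : ℂ} (hz : z ∈ Dsc) : 0 < (ck z).re := by
  have h : ck z = kk (-z) := by
    rw [ck, kk]
    congr 1
    ring
  rw [h]
  apply kk_re_pos
  rw [norm_neg]
  exact mem_Dsc.1 hz

lemma key1 {f : ℂ → ℂ} (hf : DifferentiableOn ℂ f Dsc) (hre : ∀ z ∈ Dsc, 0 < (f z).re)
    {R : ℝ} (hR : 0 < R) {V : ℂ} (hV : V.re = 0)
    (hlim : Tendsto (fun r : ℝ => (f r - (R * ck r + V)) / (1 - (r : ℂ)) ^ 3) (𝓝[<] 1) (𝓝 0))
    {z : ℂ} (hz : z ∈ Dsc) : f z = R * ck z + V := by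
  have hRc : (R : ℂ) ≠ 0 := Complex.ofReal_ne_zero.2 hR.ne'
  set g : ℂ → ℂ := fun z => (f z - V) / R with hg
  have hgre : ∀ z ∈ Dsc, 0 < (g z).re := by
    intro z hz
    rw [hg]
    simp only
    rw [Complex.div_ofReal_re, Complex.sub_re, hV, sub_zero]
    exact div_pos (hre z hz) hR
  have hg0 : ∀ z ∈ Dsc, g z ≠ 0 := by
    intro z hz h
    have := hgre z hz
    rw [h, Complex.zero_re] at this
    exact lt_irrefl _ this
  have hgd : DifferentiableOn ℂ g Dsc := (hf.sub_const V).div_const _
  set h : ℂ → ℂ := fun z => (g z)⁻¹ with hh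
  have hhd : DifferentiableOn ℂ h Dsc := hgd.inv hg0
  have hhre : ∀ z ∈ Dsc, 0 < (h z).re := by
    intro z hz
    rw [hh]
    simp only
    rw [Complex.inv_re]
    exact div_pos (hgre z hz) (Complex.normSq_pos.2 (hg0 z hz))
  -- asymptotics
  set E : ℝ → ℂ := fun r => (f r - (R * ck r + V)) / (1 - (r : ℂ)) ^ 3 with hE
  set a : ℝ → ℂ := fun r => 1 / (1 + (r : ℂ)) + E r * (1 - (r : ℂ)) ^ 2 / R with ha
  have hcr : Tendsto (fun r : ℝ => (r : ℂ)) (𝓝[<] 1) (𝓝 1) :=
    tendsto_real.mono_right nhdsWithin_le_nhds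
  have ha1 : Tendsto a (𝓝[<] 1) (𝓝 (1 / (1 + 1) + 0 * (1 - 1) ^ 2 / R)) := by
    apply Tendsto.add
    · exact tendsto_const_nhds.div (tendsto_const_nhds.add hcr) (by norm_num)
    · exact (hlim.mul ((tendsto_const_nhds.sub hcr).pow 2)).div_const _
  have ha2 : Tendsto a (𝓝[<] 1) (𝓝 (1 / 2)) := by
    have e : (1 / (1 + 1) + 0 * (1 - 1) ^ 2 / R : ℂ) = 1 / 2 := by norm_num
    rwa [e] at ha1
  have hev : ∀ᶠ r : ℝ in 𝓝[<] 1, 0 < r ∧ r < 1 ∧ a r ≠ 0 := by
    filter_upwards [Ioo_mem_nhdsLT (zero_lt_one : (0 : ℝ) < 1),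
      ha2.eventually_ne (by norm_num : (1 / 2 : ℂ) ≠ 0)] with r h1 h2
    exact ⟨h1.1, h1.2, h2⟩
  have hrD : ∀ r : ℝ, 0 < r → r < 1 → (r : ℂ) ∈ Dsc := by
    intro r h1 h2
    rw [mem_Dsc, Complex.norm_real, Real.norm_of_nonneg h1.le]
    exact h2
  have hga : ∀ r : ℝ, 0 < r → r < 1 → g r = (1 - (r : ℂ)) * a r := by
    intro r h1 h2
    have n1 := one_sub_ne (mem_Dsc.1 (hrD r h1 h2))
    have n2 := one_add_ne (mem_Dsc.1 (hrD r h1 h2))
    rw [ha]
    simp only
    rw [hE, hg]
    simp only
    rw [ck]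
    field_simp
    ring
  have hlim1 : Tendsto (fun r : ℝ => (1 - (r : ℂ)) * (h r / 2)) (𝓝[<] 1) (𝓝 1) := by
    have h1 : Tendsto (fun r : ℝ => 1 / (2 * a r)) (𝓝[<] 1) (𝓝 (1 / (2 * (1 / 2)))) :=
      tendsto_const_nhds.div (ha2.const_mul 2) (by norm_num)
    have e : (1 / (2 * (1 / 2)) : ℂ) = 1 := by norm_num
    rw [e] at h1
    refine h1.congr' ?_
    filter_upwards [hev] with r hr
    have n1 := one_sub_ne (mem_Dsc.1 (hrD r hr.1 hr.2.1))
    have n2 := hr.2.2
    rw [hh]
    simp only
    rw [hga r hr.1 hr.2.1]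
    field_simp
  have hlim2 : Tendsto (fun r : ℝ => (h r - kk r) / (1 - (r : ℂ))) (𝓝[<] 1) (𝓝 0) := by
    have h1 : Tendsto (fun r : ℝ => -((1 + (r : ℂ)) * E r) / (R * a r)) (𝓝[<] 1)
        (𝓝 (-((1 + 1) * 0) / (R * (1 / 2)))) := by
      apply Tendsto.div
      · exact ((tendsto_const_nhds.add hcr).mul hlim).neg
      · exact ha2.const_mul _
      · exact mul_ne_zero hRc (by norm_num)
    have e : (-((1 + 1) * 0) / (R * (1 / 2)) : ℂ) = 0 := by simp
    rw [e] at h1
    refine h1.congr' ?_
    filter_upwards [hev] with r hr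
    have n1 := one_sub_ne (mem_Dsc.1 (hrD r hr.1 hr.2.1))
    have n3 := one_add_ne (mem_Dsc.1 (hrD r hr.1 hr.2.1))
    have n2 := hr.2.2
    rw [hh]
    simp only
    rw [hga r hr.1 hr.2.1, kk]
    have e1 : R * a r * (1 + (r : ℂ)) = R + (1 + (r : ℂ)) * (E r * (1 - (r : ℂ)) ^ 2) := by
      rw [ha]
      simp only
      field_simp
    have e2 : (((1 - (r : ℂ)) * a r)⁻¹ - (1 + (r : ℂ)) / (1 - (r : ℂ))) / (1 - (r : ℂ)) =
      (R - R * a r * (1 + (r : ℂ))) / (R * a r * (1 - (r : ℂ)) ^ 2) := by
      field_simp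
    rw [e2, e1]
    field_simp
    ring
  have h0 : (0 : ℂ) ∈ Dsc := by rw [mem_Dsc, norm_zero]; exact one_pos
  have hfst : DifferentiableOn ℂ (fun l : ℂ × ℂ => h l.1) (Dsc ×ˢ Dsc) :=
    hhd.comp differentiableOn_fst (fun l hl => hl.1)
  have hfst2 : DifferentiableOn ℂ (fun l : ℂ × ℂ => h l.1 / 2) (Dsc ×ˢ Dsc) := by
    simp only [div_eq_mul_inv]
    exact hfst.mul_const _
  have hkfst : DifferentiableOn ℂ (fun l : ℂ × ℂ => kk l.1) (Dsc ×ˢ Dsc) :=
    kk_diff.comp differentiableOn_fst (fun l hl => hl.1)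
  have hj : ∀ l ∈ Dsc ×ˢ Dsc, (kk l.1).re ≤ (h l.1).re := by
    intro l hl
    have h1 := julia (g := fun l : ℂ × ℂ => h l.1 / 2) (b := 0) (l := l) hfst2
      (by
        intro l hl
        show 0 ≤ (h l.1 / 2).re
        rw [Complex.div_ofNat_re]
        have := hhre l.1 hl.1
        positivity) h0 hlim1 hl
    simp only [Complex.div_ofNat_re] at h1
    linarith
  have h2 := hopf (g := fun l : ℂ × ℂ => h l.1 - kk l.1) (b := 0) (l := (z, 0))
    (hfst.sub hkfst)
    (by
      intro l hl
      rw [Complex.sub_re]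
      linarith [hj l hl]) h0 hlim2 ⟨hz, h0⟩
  have h3 : h z = kk z := by
    have : h z - kk z = 0 := h2
    linear_combination this
  rw [hh] at h3
  simp only at h3
  have n1 := one_sub_ne (mem_Dsc.1 hz)
  have n2 := one_add_ne (mem_Dsc.1 hz)
  have h4 : g z = ck z := by
    rw [← inv_inv (g z), h3, kk, ck, inv_div]
  rw [hg] at h4
  simp only at h4
  rw [div_eq_iff hRc] at h4
  linear_combination h4

/-- identity theorem on a product of half-planes -/
lemma identity {Φ : (Fin n → ℂ) → ℂ} (hΦ : DifferentiableOn ℂ Φ {u | ∀ i, 0 < (u i).re})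
    {v : Fin n → ℂ} (hv : ∀ i, (v i).re = 0)
    (h : ∀ r : Fin n → ℝ, (∀ i, 0 < r i) → Φ (fun i => (r i : ℂ) + v i) = 0)
    {u : Fin n → ℂ} (hu : ∀ i, 0 < (u i).re) : Φ u = 0 := by
  classical
  have key : ∀ S : Finset (Fin n), ∀ u : Fin n → ℂ, (∀ i, 0 < (u i).re) →
      (∀ i, i ∉ S → ∃ r : ℝ, 0 < r ∧ u i = r + v i) → Φ u = 0 := by
    intro S
    induction S using Finset.induction_on with
    | empty =>
      intro u _ hu
      choose r hr1 hr2 using fun i => hu i (Finset.notMem_empty i)
      have : u = fun i => (r i : ℂ) + v i := funext hr2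
      rw [this]
      exact h r hr1
    | insert a S haS ih =>
      intro u hu0 hu
      have hH : IsOpen {w : ℂ | 0 < w.re} := isOpen_lt continuous_const Complex.continuous_re
      have hd : DifferentiableOn ℂ (fun w => Φ (Function.update u a w)) {w : ℂ | 0 < w.re} := by
        apply hΦ.comp
        · apply Differentiable.differentiableOn
          rw [differentiable_pi]
          intro i
          by_cases hi : i = a
          · subst hi
            simp only [Function.update_self]
            fun_prop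
          · simp only [Function.update_of_ne hi]
            fun_prop
        · intro w hw i
          by_cases hi : i = a
          · subst hi
            simp only [Function.update_self]
            exact hw
          · simp only [Function.update_of_ne hi]
            exact hu0 i
      have han := hd.analyticOnNhd hH
      have hz0 : (v a + ((1 : ℝ) : ℂ)) ∈ {w : ℂ | 0 < w.re} := by
        show 0 < (v a + ((1 : ℝ) : ℂ)).re
        rw [Complex.add_re, hv, Complex.ofReal_re]
        norm_num
      have hfreq : ∃ᶠ w in 𝓝[≠] (v a + ((1 : ℝ) : ℂ)), Φ (Function.update u a w) = 0 := by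
        have ht : Tendsto (fun r : ℝ => v a + (r : ℂ)) (𝓝[≠] 1)
            (𝓝[≠] (v a + ((1 : ℝ) : ℂ))) := by
          rw [tendsto_nhdsWithin_iff]
          constructor
          · have : Continuous (fun r : ℝ => v a + (r : ℂ)) := by fun_prop
            exact (this.tendsto 1).mono_left nhdsWithin_le_nhds
          · filter_upwards [self_mem_nhdsWithin] with r hr
            intro hc
            apply hr
            have : (r : ℂ) = ((1 : ℝ) : ℂ) := by
              have hc' : v a + (r : ℂ) = v a + ((1 : ℝ) : ℂ) := hc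
              linear_combination hc'
            exact Complex.ofReal_injective this
        apply ht.frequently
        apply Eventually.frequently
        have h1 : ∀ᶠ r : ℝ in 𝓝[≠] 1, 0 < r :=
          nhdsWithin_le_nhds (lt_mem_nhds (zero_lt_one : (0 : ℝ) < 1))
        filter_upwards [h1] with r hr
        apply ih
        · intro i
          by_cases hi : i = a
          · subst hi
            simp only [Function.update_self]
            rw [Complex.add_re, hv, Complex.ofReal_re]
            linarith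
          · simp only [Function.update_of_ne hi]
            exact hu0 i
        · intro i hi
          by_cases hia : i = a
          · subst hia
            exact ⟨r, hr, by rw [Function.update_self, add_comm]⟩
          · obtain ⟨r', h1, h2⟩ := hu i (by
              rw [Finset.mem_insert]
              push Not
              exact ⟨hia, hi⟩)
            exact ⟨r', h1, by rw [Function.update_of_ne hia, h2]⟩
      have heq := han.eqOn_zero_of_preconnected_of_frequently_eq_zero
        (convex_halfSpace_re_gt 0).isPreconnected hz0 hfreq (hu0 a)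
      simp only [Function.update_eq_self] at heq
      exact heq
  exact key Finset.univ u hu (fun i hi => absurd (Finset.mem_univ i) hi)

end Pool.Agent.R238.BK
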